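import Pool.Agent.Helper99.TCU.Gs

/-!
# T10, modules M2 and M4: the means of `G2` and of `G4`
-/

set_option autoImplicit false

namespace Pool.TCU

open Pool.TC Pool.TCM Pool.TCS Finset
open scoped Classical

section

variable {V κ : Type} [Fintype V] [Fintype κ] {S : CS V κ} {U : Finset V} {L : V → Finset κ}
  {D l m K : ℕ} {x : ℝ} {q : V → κ → ℝ} {Lam : ℝ} {o : V → κ}

private theorem m2_Psi2 (hg : Cho S U L K o) {u : V}
    (hu : u ∈ U) {a : κ} (ha : a ∈ L u) :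
    (1 - bet m K) * Ss S U m K o u a * (1 - fK S U L l m K q u a) =
      Psi2 S U L l m K q o u a := by
  unfold Psi2 Ss
  have h1 := npair_le S (KP S U o u a)
  have h2 : ((KP S U o u a).card : ℝ) ≤ K := by exact_mod_cast hg.kP u hu a ha
  have h3 : ((KP S U o u a).card : ℝ) ^ 2 ≤ (K : ℝ) ^ 2 :=
    pow_le_pow_left₀ (Nat.cast_nonneg _) h2 2
  have h4 : (0 : ℝ) ≤ (K : ℝ) ^ 2 := by positivity
  rw [min_eq_left (by linarith)]

private theorem m2_one (hRet : St_Ret) (hPK : St_PK) (h : Hyp S U L D l m K x q Lam)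
    (hg : Cho S U L K o) {u : V} (hu : u ∈ U) {a : κ} (ha : a ∈ L u) :
    mean (fun ω => if ¬ retv S U o m K ω u ∧ nP S U o m K ω u a ∧
      ¬ ekv S U L l m K q o ω u a then (1 : ℝ) else 0) ≤
      Psi2 S U L l m K q o u a + (1 / 2) ^ K := by
  obtain ⟨-, -, -, h4⟩ := hRet V κ S U L D l m K x q Lam o h hg
  have hs0 := gs_nn hPK h hg hu ha
  have hs1 := gs_le1 hPK h hg hu ha
  obtain ⟨f1, f2, f3⟩ := gs_fl (p := 1 - gS S U L l m K q o u a) h (by linarith) (by linarith)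
  have h5 := h4 (fun ω => if ¬ retv S U o m K ω u ∧ nP S U o m K ω u a then (1 : ℝ) else 0)
    (fun ω ω' hh => by
      have e := gs_inl (S := S) (U := U) (o := o) ω ω' hh
      exact if_congr (by unfold nP; simp only [e]) rfl rfl) u (u, a) 0 _ (Nat.zero_le _) f1
  have e1 : (fun ω : Lab V κ → Fin (m ^ (2 * K + 1)) => if ¬ retv S U o m K ω u ∧
      nP S U o m K ω u a ∧ ¬ ekv S U L l m K q o ω u a then (1 : ℝ) else 0) =
      fun ω => if ¬ (ω (Sum.inr (Sum.inl u))).val < 0 ∧ ¬ (ω (Sum.inr (Sum.inr (u, a)))).val <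
        ⌊(1 - gS S U L l m K q o u a) * (m : ℝ) ^ (2 * K + 1)⌋₊
      then (if ¬ retv S U o m K ω u ∧ nP S U o m K ω u a then (1 : ℝ) else 0) else 0 := by
    funext ω
    unfold ekv
    by_cases h6 : (ω (Sum.inr (Sum.inr (u, a)))).val <
        ⌊(1 - gS S U L l m K q o u a) * (m : ℝ) ^ (2 * K + 1)⌋₊
    · rw [if_neg (fun hh => hh.2.2 h6), if_neg (fun hh => hh.2 h6)]
    · rw [if_pos (⟨Nat.not_lt_zero _, h6⟩ : _ ∧ _)]
      by_cases h7 : ¬ retv S U o m K ω u ∧ nP S U o m K ω u a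
      · rw [if_pos h7, if_pos ⟨h7.1, h7.2, h6⟩]
      · rw [if_neg h7, if_neg (fun hh => h7 ⟨hh.1, hh.2.1⟩)]
  rw [e1, h5]
  have e2 : mean (fun ω => if ¬ retv S U o m K ω u ∧ nP S U o m K ω u a then (1 : ℝ) else 0) =
      A2 S U o m K u a := rfl
  rw [e2]
  obtain ⟨a0, a1⟩ := gs_A2_le (S := S) (U := U) (o := o) (m := m) (K := K) u a
  have h6 := gs_A2 hPK h hg hu ha
  rw [m2_Psi2 hg hu ha] at h6
  have h7 : (0 : ℝ) ≤ (1 / 2) ^ K := by positivity
  have h8 := mul_le_mul_of_nonneg_left f3 a0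
  have h9 := mul_le_mul_of_nonneg_right a1 h7
  rw [Nat.cast_zero, zero_div, sub_zero, mul_one]
  calc A2 S U o m K u a * (1 - (⌊(1 - gS S U L l m K q o u a) * (m : ℝ) ^ (2 * K + 1)⌋₊ : ℝ) /
        (m : ℝ) ^ (2 * K + 1))
      ≤ A2 S U o m K u a * (1 - (1 - gS S U L l m K q o u a) + (1 / 2) ^ K) := h8
    _ = A2 S U o m K u a * gS S U L l m K q o u a + A2 S U o m K u a * (1 / 2) ^ K := by ring
    _ ≤ Psi2 S U L l m K q o u a + (1 / 2) ^ K := by linarith

end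

theorem thm_M2 (hRet : St_Ret) (hPK : St_PK) : St_M2 := by
  intro V κ _ _ S U L D l m K x q Lam o h hg v
  have e1 : G2 S U L l m K q o v = fun ω => ∑ p ∈ Cv S U L v,
      (if ¬ retv S U o m K ω p.1 ∧ nP S U o m K ω p.1 p.2 ∧
        ¬ ekv S U L l m K q o ω p.1 p.2 then (1 : ℝ) else 0) := by
    funext ω
    unfold G2
    rw [← sum_boole]
  rw [e1, gs_sum]
  have h3 : ∀ p ∈ Cv S U L v, mean (fun ω => if ¬ retv S U o m K ω p.1 ∧
      nP S U o m K ω p.1 p.2 ∧ ¬ ekv S U L l m K q o ω p.1 p.2 then (1 : ℝ) else 0) ≤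
      Psi2 S U L l m K q o p.1 p.2 + (1 / 2) ^ K := by
    intro p hp
    unfold Cv at hp
    rw [mem_filter] at hp
    obtain ⟨-, hu, ha, -⟩ := hp
    exact m2_one hRet hPK h hg hu ha
  refine (sum_le_sum h3).trans ?_
  rw [sum_add_distrib, sum_const, nsmul_eq_mul]
  have h4 := h.Cv2 v
  have h5 : (0 : ℝ) ≤ (1 / 2) ^ K := by positivity
  have h6 := mul_le_mul_of_nonneg_right h4 h5
  linarith

theorem thm_M4 (hRet : St_Ret) (_hPK : St_PK) : St_M4 := by
  intro V κ _ _ S U L D l m K x q Lam o T h hg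
  obtain ⟨h1, -, -, -⟩ := hRet V κ S U L D l m K x q Lam o h hg
  unfold G4
  rw [gs_sum, mul_sum]
  refine sum_congr rfl fun w hw => ?_
  have e1 : (fun ω : Lab V κ → Fin (m ^ (2 * K + 1)) =>
      if retv S U o m K ω w then T w (o w) else 0) =
      fun ω => T w (o w) * (if retv S U o m K ω w then (1 : ℝ) else 0) := by
    funext ω
    split_ifs <;> simp
  rw [e1, gs_mul, h1 w hw]
  ring

end Pool.TCU
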