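import Pool.Agent.Helper99.TCU.Gs

/-!
# T10, module M3: the mean of `G3`
-/

set_option autoImplicit false

namespace Pool.TCU

open Pool.TC Pool.TCM Pool.TCS Finset
open scoped Classical

private theorem m3_elem {A tb tk g e d P : ℝ} (a0 : 0 ≤ A) (a1 : A ≤ 1) (hd : 0 ≤ d)
    (e0 : 0 ≤ e) (e1 : e ≤ 1) (k0 : 0 ≤ tk) (k1 : tk ≤ 1 - g) (k2 : 1 - tk ≤ 1 - (1 - g) + d)
    (b2 : 1 - tb ≤ 1 - e + d) (hP : A * g * (1 - e) ≤ P) (g0 : 0 ≤ g) :
    A * (1 - tb) * (1 - tk) ≤ P + 2 * d := by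
  have h1 : A * (1 - tb) * (1 - tk) ≤ A * (1 - e + d) * (1 - tk) :=
    mul_le_mul_of_nonneg_right (mul_le_mul_of_nonneg_left b2 a0) (by linarith)
  have h2 : A * (1 - e) * (1 - tk) ≤ A * (1 - e) * (1 - (1 - g) + d) :=
    mul_le_mul_of_nonneg_left k2 (mul_nonneg a0 (by linarith))
  have h3 : A * (1 - tk) ≤ 1 := mul_le_one₀ a1 (by linarith) (by linarith)
  have h4 : A * (1 - tk) * d ≤ 1 * d := mul_le_mul_of_nonneg_right h3 hd
  have h5 : A * (1 - e) ≤ 1 := mul_le_one₀ a1 (by linarith) (by linarith)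
  have h6 : A * (1 - e) * d ≤ 1 * d := mul_le_mul_of_nonneg_right h5 hd
  nlinarith

section

variable {V κ : Type} [Fintype V] [Fintype κ] {S : CS V κ} {U : Finset V} {L : V → Finset κ}
  {D l m K : ℕ} {x : ℝ} {q : V → κ → ℝ} {Lam : ℝ} {o : V → κ}

private theorem m3_one (hRet : St_Ret) (hPK : St_PK) (h : Hyp S U L D l m K x q Lam)
    (hg : Cho S U L K o) {u : V} (hu : u ∈ U) {a : κ} (ha : a ∈ L u) :
    mean (fun ω => if ¬ retv S U o m K ω u ∧ nR S U o m K ω u a ∧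
      ¬ bkv S U L l m K x ω (S.r u a) ∧ ¬ ekv S U L l m K q o ω u a then (1 : ℝ) else 0) ≤
      Psi3 S U L l m K x q o u a + 2 * (1 / 2) ^ K := by
  obtain ⟨-, -, -, h4⟩ := hRet V κ S U L D l m K x q Lam o h hg
  have hs0 := gs_nn hPK h hg hu ha
  have hs1 := gs_le1 hPK h hg hu ha
  have hr0 := h.eR_nonneg (S.r u a)
  have hr1 := h.eR_le (S.r u a)
  obtain ⟨f1, f2, f3⟩ := gs_fl (p := 1 - gS S U L l m K q o u a) h (by linarith) (by linarith)
  obtain ⟨g1, g2, g3⟩ := gs_fl (p := eR S U L l m K x (S.r u a)) h hr0 (by linarith)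
  have h5 := h4 (fun ω => if ¬ retv S U o m K ω u ∧ nR S U o m K ω u a then (1 : ℝ) else 0)
    (fun ω ω' hh => by
      have e := gs_inl (S := S) (U := U) (o := o) ω ω' hh
      exact if_congr (by unfold nR; simp only [e]) rfl rfl) (S.r u a) (u, a) _ _ g1 f1
  have e1 : (fun ω : Lab V κ → Fin (m ^ (2 * K + 1)) => if ¬ retv S U o m K ω u ∧
      nR S U o m K ω u a ∧ ¬ bkv S U L l m K x ω (S.r u a) ∧
      ¬ ekv S U L l m K q o ω u a then (1 : ℝ) else 0) =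
      fun ω => if ¬ (ω (Sum.inr (Sum.inl (S.r u a)))).val <
        ⌊eR S U L l m K x (S.r u a) * (m : ℝ) ^ (2 * K + 1)⌋₊ ∧
        ¬ (ω (Sum.inr (Sum.inr (u, a)))).val <
        ⌊(1 - gS S U L l m K q o u a) * (m : ℝ) ^ (2 * K + 1)⌋₊
      then (if ¬ retv S U o m K ω u ∧ nR S U o m K ω u a then (1 : ℝ) else 0) else 0 := by
    funext ω
    unfold ekv bkv
    by_cases h6 : ¬ (ω (Sum.inr (Sum.inl (S.r u a)))).val <
        ⌊eR S U L l m K x (S.r u a) * (m : ℝ) ^ (2 * K + 1)⌋₊ ∧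
        ¬ (ω (Sum.inr (Sum.inr (u, a)))).val <
        ⌊(1 - gS S U L l m K q o u a) * (m : ℝ) ^ (2 * K + 1)⌋₊
    · rw [if_pos h6]
      by_cases h7 : ¬ retv S U o m K ω u ∧ nR S U o m K ω u a
      · rw [if_pos h7, if_pos ⟨h7.1, h7.2, h6.1, h6.2⟩]
      · rw [if_neg h7, if_neg (fun hh => h7 ⟨hh.1, hh.2.1⟩)]
    · rw [if_neg h6, if_neg (fun hh => h6 ⟨hh.2.2.1, hh.2.2.2⟩)]
  rw [e1, h5]
  have e2 : mean (fun ω => if ¬ retv S U o m K ω u ∧ nR S U o m K ω u a then (1 : ℝ) else 0) =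
      A3 S U o m K u a := rfl
  rw [e2]
  obtain ⟨a0, a1⟩ := gs_A3_le (S := S) (U := U) (o := o) (m := m) (K := K) u a
  have h6 := gs_A3 hPK h hg hu ha
  have h7 : (0 : ℝ) ≤ (1 / 2) ^ K := by positivity
  have h8 : (1 - bet m K) * (1 - bet m K * (KR S U o u (S.r u a)).card) *
      (1 - fK S U L l m K q u a) * (1 - eR S U L l m K x (S.r u a)) =
      Psi3 S U L l m K x q o u a := by
    unfold Psi3
    ring
  have h9 := mul_le_mul_of_nonneg_right h6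
    (by linarith : 0 ≤ 1 - eR S U L l m K x (S.r u a))
  rw [h8] at h9
  have hN : (0 : ℝ) ≤ (⌊(1 - gS S U L l m K q o u a) * (m : ℝ) ^ (2 * K + 1)⌋₊ : ℝ) /
      (m : ℝ) ^ (2 * K + 1) := div_nonneg (Nat.cast_nonneg _) (by positivity)
  exact m3_elem a0 a1 h7 hr0 (by linarith) hN f2 f3 g3 h9 hs0

end

theorem thm_M3 (hRet : St_Ret) (hPK : St_PK) : St_M3 := by
  intro V κ _ _ S U L D l m K x q Lam o T h hg hT
  unfold G3
  have e1 : mean (fun ω : Lab V κ → Fin (m ^ (2 * K + 1)) => ∑ w ∈ U, ∑ b ∈ L w,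
      if ¬ retv S U o m K ω w ∧ nR S U o m K ω w b ∧
      ¬ bkv S U L l m K x ω (S.r w b) ∧ ¬ ekv S U L l m K q o ω w b then T w b else 0) =
      ∑ w ∈ U, ∑ b ∈ L w, T w b * mean (fun ω => if ¬ retv S U o m K ω w ∧ nR S U o m K ω w b ∧
      ¬ bkv S U L l m K x ω (S.r w b) ∧ ¬ ekv S U L l m K q o ω w b then (1 : ℝ) else 0) := by
    rw [gs_sum]
    refine sum_congr rfl fun w _ => ?_
    rw [gs_sum]
    refine sum_congr rfl fun b _ => ?_
    rw [← gs_mul]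
    congr 1
    funext ω
    split_ifs <;> simp
  rw [e1]
  have e2 : (∑ w ∈ U, ∑ b ∈ L w, T w b * Psi3 S U L l m K x q o w b) +
      2 * (1 / 2) ^ K * nm U L T =
      ∑ w ∈ U, ∑ b ∈ L w, T w b * (Psi3 S U L l m K x q o w b + 2 * (1 / 2) ^ K) := by
    unfold nm
    rw [mul_sum, ← sum_add_distrib]
    refine sum_congr rfl fun w _ => ?_
    rw [mul_sum, ← sum_add_distrib]
    refine sum_congr rfl fun b _ => ?_
    ring
  rw [e2]
  refine sum_le_sum fun w hw => sum_le_sum fun b hb => ?_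
  exact mul_le_mul_of_nonneg_left (m3_one hRet hPK h hg hw hb) (hT w b)

end Pool.TCU
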