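import Pool.Agent.Helper93.TCU.SStmt2

/-!
# T10, module SNp: the non-adjacent pairs in `PU u a`
-/

set_option autoImplicit false

namespace Pool.TCU

open Pool.TC Pool.TCM Pool.TCS Pool.TCV Finset
open scoped Classical

private theorem snp_card {V : Type} (A B : Finset V) (T R : V × V → Prop)
    [DecidablePred T] [DecidablePred R]
    (hBA : B ⊆ A) (hR : ∀ p, R p → p ∈ A ×ˢ A → T p) :
    ((A ×ˢ A).filter R).card ≤ ((B ×ˢ B).filter T).card + 2 * ((A.card - B.card) * A.card) := by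
  have h1 : (A ×ˢ A).filter R ⊆ ((B ×ˢ B).filter T) ∪ (((A \ B) ×ˢ A) ∪ (A ×ˢ (A \ B))) := by
    intro p hp
    rw [mem_filter] at hp
    have hT := hR p hp.2 hp.1
    have h3 := hp.1
    rw [mem_product] at h3
    simp only [mem_union, mem_filter, mem_product, mem_sdiff]
    by_cases h1 : p.1 ∈ B
    · by_cases h2 : p.2 ∈ B
      · exact Or.inl ⟨⟨h1, h2⟩, hT⟩
      · exact Or.inr (Or.inr ⟨h3.1, h3.2, h2⟩)
    · exact Or.inr (Or.inl ⟨⟨h3.1, h1⟩, h3.2⟩)
  have h2 := (card_le_card h1).trans (card_union_le _ _)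
  have h3 := card_union_le ((A \ B) ×ˢ A) (A ×ˢ (A \ B))
  rw [card_product, card_product, card_sdiff_of_subset hBA] at h3
  have e : A.card * (A.card - B.card) = (A.card - B.card) * A.card := mul_comm _ _
  omega

theorem thm_SNp (h : St_SVp) : St_SNp := by
  intro P V κ _ _ t hn hb u a hA hd
  have hv := h P V κ t hn hb u hA hd
  have hsub : t.PU P u a ⊆ nb t.G u := by
    intro w hw
    unfold Td.PU at hw
    simp only [mem_filter, mem_univ, true_and] at hw
    rcases hw.1 with h | ⟨-, -, -, i, hi, -⟩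
    · unfold nb
      exact mem_filter.2 ⟨mem_univ _, h⟩
    · exact absurd hi (hA.2 i)
  have h1 : ((nb t.G u ×ˢ nb t.G u).filter
      (fun w => w.1 ≠ w.2 ∧ ¬ t.adj' P w.1 w.2)).card ≤
      ((t.PU P u a ×ˢ t.PU P u a).filter (fun w => w.1 ≠ w.2 ∧ ¬ t.adj' P w.1 w.2)).card +
        2 * (((nb t.G u).card - (t.PU P u a).card) * (nb t.G u).card) :=
    snp_card (nb t.G u) (t.PU P u a) _ _ hsub (fun p hp _ => hp)
  have h2 : Pool.TN.npr t.G u ≤
      ((nb t.G u ×ˢ nb t.G u).filter (fun w => w.1 ≠ w.2 ∧ ¬ t.adj' P w.1 w.2)).card +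
      ((nb t.G u ×ˢ nb t.G u).filter (fun p => t.vir P p.1 p.2)).card := by
    unfold Pool.TN.npr
    refine le_trans (card_le_card ?_) (card_union_le _ _)
    intro p hp
    simp only [mem_union, mem_filter] at hp ⊢
    by_cases hq : t.vir P p.1 p.2
    · exact Or.inr ⟨hp.1, hq⟩
    · refine Or.inl ⟨hp.1, hp.2.1, ?_⟩
      rintro (h3 | h3)
      · exact hp.2.2 h3
      · exact hq h3
  have hD := hb.gr.reg u
  rw [hD] at h1
  have h3 : (t.PU P u a).card ≤ P.D := by
    rw [← hD]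
    exact card_le_card hsub
  have h1' : (((nb t.G u ×ˢ nb t.G u).filter
      (fun w => w.1 ≠ w.2 ∧ ¬ t.adj' P w.1 w.2)).card : ℝ) ≤
      ((t.PU P u a ×ˢ t.PU P u a).filter (fun w => w.1 ≠ w.2 ∧ ¬ t.adj' P w.1 w.2)).card +
        2 * (((P.D : ℝ) - (t.PU P u a).card) * P.D) := by
    have := (Nat.cast_le (α := ℝ)).2 h1
    push_cast [Nat.cast_sub h3] at this
    exact this
  have h2' : (Pool.TN.npr t.G u : ℝ) ≤
      ((nb t.G u ×ˢ nb t.G u).filter (fun w => w.1 ≠ w.2 ∧ ¬ t.adj' P w.1 w.2)).card +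
      ((nb t.G u ×ˢ nb t.G u).filter (fun p => t.vir P p.1 p.2)).card := by
    exact_mod_cast h2
  have hv' : 100 * (((nb t.G u ×ˢ nb t.G u).filter (fun p => t.vir P p.1 p.2)).card : ℝ) ≤
      Pool.TN.npr t.G u := by
    exact_mod_cast hv
  linarith

end Pool.TCU
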