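import Pool.Agent.Helper93.TCU.SStmt2

/-!
# T10, module SPuc: the number of the rows of `U` adjacent to `u`
-/

set_option autoImplicit false

namespace Pool.TCU

open Pool.TC Pool.TCM Pool.TCS Pool.TCV Finset
open scoped Classical

section

variable {V : Type} [Fintype V] {P : Par} {g : Gd V}

private theorem spuc_eta (hn : Num10 P) : 0 < P.eta := by
  rw [hn.eta]
  have h1 : (0 : ℝ) < P.X := by
    have h2 := hn.X0
    have : 0 < P.X := lt_of_lt_of_le (by positivity) h2
    exact_mod_cast this
  positivity

private theorem spuc_vir (hn : Num10 P) (hg : GrP P g) (u : V) :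
    ((univ.filter (fun w => g.vir P u w)).card : ℝ) ≤ 103 * P.delta * P.D / P.eta ^ 2 := by
  have he := spuc_eta hn
  have h1 : univ.filter (fun w => g.vir P u w) ⊆
      (univ.filter (fun i => g.hv P i u)).biUnion (fun i => univ.filter (fun x => g.hv P i x)) := by
    intro w hw
    rw [mem_filter] at hw
    obtain ⟨-, -, -, -, i, hi, hi'⟩ := hw
    rw [mem_biUnion]
    exact ⟨i, mem_filter.2 ⟨mem_univ _, hi⟩, mem_filter.2 ⟨mem_univ _, hi'⟩⟩
  have h2 : ((univ.filter (fun w => g.vir P u w)).card : ℝ) ≤
      ∑ i ∈ univ.filter (fun i => g.hv P i u), ((univ.filter (fun x => g.hv P i x)).card : ℝ) := by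
    have := (card_le_card h1).trans card_biUnion_le
    exact_mod_cast this
  have h3 := sum_le_sum fun i (_ : i ∈ univ.filter (fun i => g.hv P i u)) => hg.hv1 i
  rw [sum_const, nsmul_eq_mul] at h3
  have h4 := hg.hv2 u
  have h5 : (0 : ℝ) ≤ 103 * P.delta * P.D / P.eta := by
    rw [hn.delta]
    positivity
  have h6 : ((univ.filter (fun i => g.hv P i u)).card : ℝ) ≤ 1 / P.eta := by
    rw [le_div_iff₀ he]
    linarith
  calc ((univ.filter (fun w => g.vir P u w)).card : ℝ)
      ≤ (univ.filter (fun i => g.hv P i u)).card * (103 * P.delta * P.D / P.eta) := h2.trans h3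
    _ ≤ 1 / P.eta * (103 * P.delta * P.D / P.eta) := mul_le_mul_of_nonneg_right h6 h5
    _ = 103 * P.delta * P.D / P.eta ^ 2 := by
      field_simp

private theorem spuc_num (hn : Num10 P) : 103 * P.delta * P.D / P.eta ^ 2 ≤ P.D := by
  have hX : (103 : ℝ) ≤ P.X := by
    have h2 := hn.X0
    have : 103 ≤ P.X := le_trans (by norm_num) h2
    exact_mod_cast this
  have h1 : (103 : ℝ) ≤ (P.X : ℝ) ^ 1700 :=
    hX.trans (le_self_pow₀ (by linarith) (by norm_num))
  have hD : (0 : ℝ) ≤ P.D := Nat.cast_nonneg _
  have hp : (0 : ℝ) < P.X := by linarith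
  have e : 103 * P.delta * P.D / P.eta ^ 2 = 103 * P.D / (P.X : ℝ) ^ 1700 := by
    rw [hn.delta, hn.eta, div_pow, one_pow, ← pow_mul]
    have e1 : (P.X : ℝ) ^ 4900 = (P.X : ℝ) ^ 1700 * (P.X : ℝ) ^ (1600 * 2) := by
      rw [← pow_add]
    rw [e1]
    have e2 : (0 : ℝ) < (P.X : ℝ) ^ 1700 := by positivity
    have e3 : (0 : ℝ) < (P.X : ℝ) ^ (1600 * 2) := by positivity
    generalize (P.X : ℝ) ^ 1700 = y at *
    generalize (P.X : ℝ) ^ (1600 * 2) = z at *
    field_simp
  rw [e, div_le_iff₀ (by positivity)]
  nlinarith

end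

theorem thm_SPuc : St_SPuc := by
  intro P V κ _ _ t hn hb
  have hg := hb.gr
  constructor
  · intro u a hu
    have h1 : t.PU P u a ⊆ ((nb t.G u).filter (fun w => t.K w = none)) ∪
        (univ.filter (fun w => t.vir P u w)) := by
      intro w hw
      unfold Td.PU at hw
      simp only [mem_filter, mem_univ, true_and] at hw
      simp only [mem_union, mem_filter, mem_univ, true_and]
      rcases hw.1 with h | h
      · left
        refine ⟨?_, hw.2.1.1⟩
        unfold nb
        exact mem_filter.2 ⟨mem_univ _, h⟩
      · exact Or.inr h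
    have h2 := (card_le_card h1).trans (card_union_le _ _)
    have h3 : ((nb t.G u).filter (fun w => t.K w = none)).card + t.dKU u = P.D := by
      rw [← hg.reg u]
      unfold Gd.dKU
      exact card_filter_add_card_filter_not (s := nb t.G u) (fun w => t.K w = none)
    have h2' : ((t.PU P u a).card : ℝ) ≤ (((nb t.G u).filter (fun w => t.K w = none)).card : ℝ) +
        (univ.filter (fun w => t.vir P u w)).card := by exact_mod_cast h2
    have h3' : (((nb t.G u).filter (fun w => t.K w = none)).card : ℝ) + t.dKU u = P.D := by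
      exact_mod_cast h3
    split_ifs with hA
    · have h4 : (univ.filter (fun w => t.vir P u w)) = ∅ := by
        rw [filter_eq_empty_iff]
        rintro w - ⟨-, -, -, i, hi, -⟩
        exact hA.2 i hi
      rw [h4, card_empty, Nat.cast_zero] at h2'
      linarith
    · have h4 := spuc_vir hn hg u
      linarith
  · intro u
    have h1 : univ.filter (fun v => t.adj' P u v) ⊆ (nb t.G u) ∪
        (univ.filter (fun w => t.vir P u w)) := by
      intro w hw
      simp only [mem_filter, mem_univ, true_and] at hw
      simp only [mem_union, mem_filter, mem_univ, true_and]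
      rcases hw with h | h
      · left
        unfold nb
        exact mem_filter.2 ⟨mem_univ _, h⟩
      · exact Or.inr h
    have h2 := (card_le_card h1).trans (card_union_le _ _)
    rw [hg.reg u] at h2
    have h3 : (univ.filter (fun w => t.vir P u w)).card ≤ P.D := by
      have := (spuc_vir hn hg u).trans (spuc_num hn)
      exact_mod_cast this
    omega

end Pool.TCU
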