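import Pool.Agent.Helper93.TCU.Stmts
import Pool.Agent.Helper93.TCU.Bas

/-!
# T10: bounds for `gS` and for the means of the activation (used by M2, M3, M4)
-/

set_option autoImplicit false

namespace Pool.TCU

open Pool.TC Pool.TCM Pool.TCS Finset
open scoped Classical

section mean

variable {Ω : Type} [Fintype Ω]

theorem gs_mono {F G : Ω → ℝ} (h : ∀ ω, F ω ≤ G ω) : mean F ≤ mean G := by
  unfold mean
  exact div_le_div_of_nonneg_right (sum_le_sum fun ω _ => h ω) (Nat.cast_nonneg _)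

theorem gs_sum {ι : Type} (s : Finset ι) (F : ι → Ω → ℝ) :
    mean (fun ω => ∑ i ∈ s, F i ω) = ∑ i ∈ s, mean (F i) := by
  unfold mean
  rw [sum_comm, ← sum_div]

theorem gs_mul (c : ℝ) (F : Ω → ℝ) : mean (fun ω => c * F ω) = c * mean F := by
  unfold mean
  rw [← mul_sum, mul_div_assoc]

theorem gs_nonneg {F : Ω → ℝ} (h : ∀ ω, 0 ≤ F ω) : 0 ≤ mean F := by
  unfold mean
  exact div_nonneg (sum_nonneg fun ω _ => h ω) (Nat.cast_nonneg _)

theorem gs_le_one {F : Ω → ℝ} (h : ∀ ω, F ω ≤ 1) : mean F ≤ 1 := by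
  unfold mean
  apply div_le_one_of_le₀ _ (Nat.cast_nonneg _)
  refine (sum_le_sum fun ω _ => h ω).trans ?_
  rw [sum_const, nsmul_eq_mul, mul_one, card_univ]

end mean

/-- the elementary inequality for the equalizing factors -/
private theorem gs_elem {A X c M : ℝ} (hA : 0 < A) (hX : 0 ≤ X) (hc : 0 ≤ c) (_hM0 : 0 ≤ M)
    (hM1 : M ≤ 1) : A * (c * min 1 (X / A) * M) ≤ X * c := by
  have h1 : min 1 (X / A) ≤ X / A := min_le_right _ _
  have h2 : 0 ≤ min 1 (X / A) := le_min zero_le_one (div_nonneg hX hA.le)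
  have h3 : A * min 1 (X / A) ≤ X := by
    calc A * min 1 (X / A) ≤ A * (X / A) := mul_le_mul_of_nonneg_left h1 hA.le
      _ = X := mul_div_cancel₀ X hA.ne'
  have h4 : A * (c * min 1 (X / A) * M) ≤ A * (c * min 1 (X / A) * 1) := by
    apply mul_le_mul_of_nonneg_left _ hA.le
    exact mul_le_mul_of_nonneg_left hM1 (mul_nonneg hc h2)
  calc A * (c * min 1 (X / A) * M) ≤ A * (c * min 1 (X / A) * 1) := h4
    _ = (A * min 1 (X / A)) * c := by ring
    _ ≤ X * c := mul_le_mul_of_nonneg_right h3 hc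

section

variable {V κ : Type} [Fintype V] [Fintype κ] {S : CS V κ} {U : Finset V} {L : V → Finset κ}
  {D l m K : ℕ} {x : ℝ} {q : V → κ → ℝ} {Lam : ℝ} {o : V → κ}

/-- the factors of `A2` and `A3` -/
theorem gs_fac (hPK : St_PK) (h : Hyp S U L D l m K x q Lam) (hg : Cho S U L K o) {u : V}
    (hu : u ∈ U) {a : κ} (ha : a ∈ L u) :
    0 ≤ (1 - bet m K) * Ss S U m K o u a ∧
      0 ≤ (1 - bet m K) * (1 - bet m K * (KR S U o u (S.r u a)).card) := by
  obtain ⟨-, h2, -, -, -⟩ := hPK V κ S U L D l m K x q Lam o h hg u hu a ha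
  have h3 := h.bet_le'
  have h4 := h.bet_pos
  have h5 : ((KR S U o u (S.r u a)).card : ℝ) ≤ K := by
    have h6 : (KR S U o u (S.r u a)).card ≤ K := by
      refine le_trans (card_le_card ?_) (hg.kR (S.r u a))
      intro w hw
      unfold KR at hw
      simp only [mem_filter, mem_univ, true_and] at hw ⊢
      exact ⟨hw.1, hw.2.2⟩
    exact_mod_cast h6
  have h6 := h.betK
  refine ⟨mul_nonneg (by linarith) (by linarith), mul_nonneg (by linarith) ?_⟩
  nlinarith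

theorem gs_nn (hPK : St_PK) (h : Hyp S U L D l m K x q Lam) (hg : Cho S U L K o) {u : V}
    (hu : u ∈ U) {a : κ} (ha : a ∈ L u) : 0 ≤ gS S U L l m K q o u a := by
  obtain ⟨h1, h2⟩ := gs_fac hPK h hg hu ha
  obtain ⟨-, -, -, h3, h4⟩ := hPK V κ S U L D l m K x q Lam o h hg u hu a ha
  have h5 := h.fK_le hu ha
  unfold gS
  refine mul_nonneg (mul_nonneg (by linarith) (le_min zero_le_one (div_nonneg h1 (by linarith))))
    (le_min zero_le_one (div_nonneg h2 (by linarith)))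

theorem gs_le1 (hPK : St_PK) (h : Hyp S U L D l m K x q Lam) (hg : Cho S U L K o) {u : V}
    (hu : u ∈ U) {a : κ} (ha : a ∈ L u) : gS S U L l m K q o u a ≤ 1 := by
  obtain ⟨h1, h2⟩ := gs_fac hPK h hg hu ha
  obtain ⟨-, -, -, h3, h4⟩ := hPK V κ S U L D l m K x q Lam o h hg u hu a ha
  have h5 := h.fK_le hu ha
  have h6 := h.fK_nonneg hu ha
  unfold gS
  have h7 : (1 - fK S U L l m K q u a) * min 1 ((1 - bet m K) * Ss S U m K o u a /
      A2 S U o m K u a) ≤ 1 :=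
    mul_le_one₀ (by linarith) (le_min zero_le_one (div_nonneg h1 (by linarith))) (min_le_left _ _)
  exact mul_le_one₀ h7 (le_min zero_le_one (div_nonneg h2 (by linarith))) (min_le_left _ _)

theorem gs_A2 (hPK : St_PK) (h : Hyp S U L D l m K x q Lam) (hg : Cho S U L K o) {u : V}
    (hu : u ∈ U) {a : κ} (ha : a ∈ L u) : A2 S U o m K u a * gS S U L l m K q o u a ≤
      (1 - bet m K) * Ss S U m K o u a * (1 - fK S U L l m K q u a) := by
  obtain ⟨h1, h2⟩ := gs_fac hPK h hg hu ha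
  obtain ⟨-, -, -, h3, h4⟩ := hPK V κ S U L D l m K x q Lam o h hg u hu a ha
  have h5 := h.fK_le hu ha
  unfold gS
  exact gs_elem (by linarith) h1 (by linarith)
    (le_min zero_le_one (div_nonneg h2 (by linarith))) (min_le_left _ _)

theorem gs_A3 (hPK : St_PK) (h : Hyp S U L D l m K x q Lam) (hg : Cho S U L K o) {u : V}
    (hu : u ∈ U) {a : κ} (ha : a ∈ L u) : A3 S U o m K u a * gS S U L l m K q o u a ≤
      (1 - bet m K) * (1 - bet m K * (KR S U o u (S.r u a)).card) *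
        (1 - fK S U L l m K q u a) := by
  obtain ⟨h1, h2⟩ := gs_fac hPK h hg hu ha
  obtain ⟨-, -, -, h3, h4⟩ := hPK V κ S U L D l m K x q Lam o h hg u hu a ha
  have h5 := h.fK_le hu ha
  unfold gS
  rw [mul_right_comm (1 - fK S U L l m K q u a)]
  exact gs_elem (by linarith) h2 (by linarith)
    (le_min zero_le_one (div_nonneg h1 (by linarith))) (min_le_left _ _)

/-- the threshold of a label with the probability `p` -/
theorem gs_fl (h : Hyp S U L D l m K x q Lam) {p : ℝ} (hp0 : 0 ≤ p) (hp1 : p ≤ 1) :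
    ⌊p * (m : ℝ) ^ (2 * K + 1)⌋₊ ≤ m ^ (2 * K + 1) ∧
    (⌊p * (m : ℝ) ^ (2 * K + 1)⌋₊ : ℝ) / (m : ℝ) ^ (2 * K + 1) ≤ p ∧
    1 - (⌊p * (m : ℝ) ^ (2 * K + 1)⌋₊ : ℝ) / (m : ℝ) ^ (2 * K + 1) ≤ 1 - p + (1 / 2) ^ K := by
  have hm := h.mpos
  have hN : (0 : ℝ) < (m : ℝ) ^ (2 * K + 1) := by positivity
  have h1 : (⌊p * (m : ℝ) ^ (2 * K + 1)⌋₊ : ℝ) ≤ p * (m : ℝ) ^ (2 * K + 1) :=
    Nat.floor_le (mul_nonneg hp0 hN.le)
  have h2 := Nat.lt_floor_add_one (p * (m : ℝ) ^ (2 * K + 1))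
  have h3 : p * (m : ℝ) ^ (2 * K + 1) ≤ (m : ℝ) ^ (2 * K + 1) := by
    nlinarith
  refine ⟨?_, ?_, ?_⟩
  · have : (⌊p * (m : ℝ) ^ (2 * K + 1)⌋₊ : ℝ) ≤ ((m ^ (2 * K + 1) : ℕ) : ℝ) := by
      push_cast
      linarith
    exact_mod_cast this
  · rw [div_le_iff₀ hN]
    exact h1
  · have h4 : p ≤ (⌊p * (m : ℝ) ^ (2 * K + 1)⌋₊ : ℝ) / (m : ℝ) ^ (2 * K + 1) +
        1 / (m : ℝ) ^ (2 * K + 1) := by
      rw [← add_div, le_div_iff₀ hN]
      exact h2.le
    have h5 := h.N_small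
    linarith

theorem gs_inl (ω ω' : Lab V κ → Fin (m ^ (2 * K + 1)))
    (h : ∀ t, ω (Sum.inl t) = ω' (Sum.inl t)) (u : V) :
    retv S U o m K ω u ↔ retv S U o m K ω' u := by
  unfold retv actv goodv
  simp only [h]

theorem gs_A2_le (u : V) (a : κ) : 0 ≤ A2 S U o m K u a ∧ A2 S U o m K u a ≤ 1 := by
  unfold A2
  constructor
  · exact gs_nonneg fun ω => by split_ifs <;> norm_num
  · exact gs_le_one fun ω => by split_ifs <;> norm_num

theorem gs_A3_le (u : V) (a : κ) : 0 ≤ A3 S U o m K u a ∧ A3 S U o m K u a ≤ 1 := by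
  unfold A3
  constructor
  · exact gs_nonneg fun ω => by split_ifs <;> norm_num
  · exact gs_le_one fun ω => by split_ifs <;> norm_num

end

end Pool.TCU
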